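import Pool.Agent.MP_c1891a_nt.H79.Spec

set_option autoImplicit false

namespace Pool.Agent.MP_c1891a_nt.H69

open Finset Polynomial Pool.Agent.MP_c1891a_nt.H79

lemma res {R S : Type} [CommRing R] [CommRing S] [IsDomain S] (φ : R →+* S) (j : ℂ →+* S)
    {M : ℕ} (hM : 0 < M) (h : R[X]) :
    ∃ f : R, φ f = ∏ ω ∈ primitiveRoots M ℂ, (h.map φ).eval (j ω) := by
  refine ⟨resultant (cyclotomic M R) h M.totient h.natDegree, ?_⟩
  have e : cyclotomic M S = (((primitiveRoots M ℂ).val.map j).map fun a => X - C a).prod := by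
    rw [← map_cyclotomic M j,
      cyclotomic_eq_prod_X_sub_primitiveRoots (Complex.isPrimitiveRoot_exp M hM.ne'),
      Polynomial.map_prod, Multiset.map_map]
    simp
  have s : (cyclotomic M S).Splits := by
    rw [← map_cyclotomic M j]
    exact (IsAlgClosed.splits _).map j
  rw [← resultant_map_map, map_cyclotomic, ← natDegree_cyclotomic M S,
    resultant_eq_prod_eval _ _ _ natDegree_map_le s, (cyclotomic.monic M S).leadingCoeff, one_pow,
    one_mul, e, roots_multiset_prod_X_sub_C, Multiset.map_map]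
  rfl

lemma zp {M : ℕ} (hM : 0 < M) {ω : ℂ} (h : IsPrimitiveRoot ω M) (k : ℤ) :
    ω ^ (k % M).toNat = ω ^ k := by
  rw [← zpow_natCast, Int.toNat_of_nonneg (Int.emod_nonneg _ (by omega))]
  conv_rhs => rw [← Int.emod_add_mul_ediv k M, zpow_add₀ (h.ne_zero hM.ne'), zpow_mul,
    zpow_natCast, h.pow_eq_one, one_zpow, mul_one]

theorem sint : SInt := by
  intro M hM ι I s k e
  obtain ⟨f, hf⟩ := res (mapRingHom (Int.castRingHom ℂ)) C hM
    (∑ i ∈ I, C (C (s i) * X ^ e i) * X ^ (k i % M).toNat)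
  refine ⟨f, hf.trans (prod_congr rfl fun ω hω => ?_)⟩
  rw [Polynomial.map_sum, eval_finsetSum]
  refine sum_congr rfl fun i _ => ?_
  rw [← zp hM (isPrimitiveRoot_of_mem_primitiveRoots hω)]
  simp
  ring

theorem snorm : SNorm := by
  intro M hM ι I s k τ hτ ⟨u0, _, p, pm, hp⟩
  obtain ⟨g, hg⟩ : ∃ g : ℤ[X], ∀ ω : ℂ, IsPrimitiveRoot ω M →
      ∑ i ∈ I, (s i : ℂ) * ω ^ k i = aeval ω g :=
    ⟨∑ i ∈ I, C (s i) * X ^ (k i % M).toNat, fun ω h => by simp [map_sum, zp hM h]⟩
  rw [prod_congr rfl fun ω h => hg ω (isPrimitiveRoot_of_mem_primitiveRoots h)]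
  rw [hg τ hτ] at u0 hp
  let := invertibleOfNonzero (inv_ne_zero u0)
  rw [← eval₂_reverse_eq_zero_iff, invOf_eq_inv, inv_inv, ← aeval_def, ← aeval_comp] at hp
  have d := minpoly.isIntegrallyClosed_dvd (hτ.isIntegral hM) hp
  rw [← cyclotomic_eq_minpoly hτ hM] at d
  obtain ⟨a, ha⟩ := res (Int.castRingHom ℂ) (RingHom.id ℂ) hM g
  obtain ⟨b, hb⟩ := res (Int.castRingHom ℂ) (RingHom.id ℂ) hM (-(divX p.reverse).comp g)
  simp only [eval_map, RingHom.id_apply, ← algebraMap_int_eq, ← aeval_def] at ha hb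
  have e : a * b = 1 := by
    apply (algebraMap ℤ ℂ).injective_int
    rw [map_mul, ha, hb, ← prod_mul_distrib, map_one]
    refine prod_eq_one fun ω h => ?_
    have h := isPrimitiveRoot_of_mem_primitiveRoots h
    rw [cyclotomic_eq_minpoly h hM] at d
    have := aeval_eq_zero_of_dvd_aeval_eq_zero d (minpoly.aeval ℤ ω)
    rw [aeval_comp, ← X_mul_divX_add p.reverse, coeff_zero_reverse, pm.leadingCoeff] at this
    simp only [map_add, map_mul, aeval_X, map_one] at this
    rw [map_neg, aeval_comp]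
    linear_combination -this
  rw [← ha]
  rcases Int.eq_one_or_neg_one_of_mul_eq_one e with rfl | rfl <;> simp

section cop
variable {M N : ℕ} (hM : 0 < M) (hN : 0 < N) (h : M.Coprime N)
include hM h

lemma inj : Set.InjOn (fun p : ℂ × ℂ => p.1 * p.2)
    (primitiveRoots M ℂ ×ˢ primitiveRoots N ℂ : Finset _) := by
  rintro ⟨a, b⟩ h1 ⟨c, d⟩ h2 e
  obtain ⟨ha, hb⟩ := mem_product.1 h1
  obtain ⟨hc, hd⟩ := mem_product.1 h2
  have ha := isPrimitiveRoot_of_mem_primitiveRoots ha
  have hb := isPrimitiveRoot_of_mem_primitiveRoots hb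
  have hc := isPrimitiveRoot_of_mem_primitiveRoots hc
  have hd := isPrimitiveRoot_of_mem_primitiveRoots hd
  have c0 := hc.ne_zero hM.ne'
  simp only at *
  have e1 : (a / c) ^ N = 1 := by
    have := congrArg (· ^ N) e
    simp only [mul_pow, hb.pow_eq_one, hd.pow_eq_one, mul_one] at this
    rw [div_pow, this, div_self (pow_ne_zero _ c0)]
  have e2 : (a / c) ^ M = 1 := by rw [div_pow, ha.pow_eq_one, hc.pow_eq_one, div_one]
  obtain rfl : a = c := (div_eq_one_iff_eq c0).1 ((pow_eq_one_iff_of_coprime h).1 ⟨e2, e1⟩)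
  rw [mul_left_cancel₀ c0 e]

include hN

open Classical in
lemma img : primitiveRoots (M * N) ℂ =
    (primitiveRoots M ℂ ×ˢ primitiveRoots N ℂ).image fun p : ℂ × ℂ => p.1 * p.2 := by
  refine (eq_of_subset_of_card_le (fun x hx => ?_) ?_).symm
  · obtain ⟨⟨a, b⟩, h1, rfl⟩ := mem_image.1 hx
    obtain ⟨ha, hb⟩ := mem_product.1 h1
    have ha := (isPrimitiveRoot_of_mem_primitiveRoots ha).eq_orderOf
    have hb := (isPrimitiveRoot_of_mem_primitiveRoots hb).eq_orderOf
    rw [mem_primitiveRoots (Nat.mul_pos hM hN), ha, hb,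
      ← (Commute.all _ _).orderOf_mul_eq_mul_orderOf_of_coprime (ha ▸ hb ▸ h)]
    exact .orderOf _
  · rw [card_image_of_injOn (inj hM h), card_product]
    simp only [Complex.card_primitiveRoots, Nat.totient_mul h, le_refl]

end cop

lemma full {n : ℕ} (hn : 0 < n) (k : ℤ) :
    ∑ d ∈ n.divisors, ram d k = if (n : ℤ) ∣ k then (n : ℂ) else 0 := by
  classical
  have hζ := Complex.isPrimitiveRoot_exp n hn.ne'
  have e : ∑ d ∈ n.divisors, ram d k = ∑ ω ∈ nthRootsFinset n (1 : ℂ), ω ^ k := by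
    rw [IsPrimitiveRoot.nthRoots_one_eq_biUnion_primitiveRoots,
      sum_biUnion fun a _ b _ h => IsPrimitiveRoot.disjoint h]
    rfl
  rw [e]
  generalize Complex.exp _ = ζ at hζ
  split_ifs with h
  · obtain ⟨c, rfl⟩ := h
    rw [sum_congr rfl (g := fun _ => 1) fun ω h => by
      rw [zpow_mul, zpow_natCast, (mem_nthRootsFinset hn 1).1 h, one_zpow]]
    simp [hζ.card_nthRootsFinset]
  · have z0 := hζ.ne_zero hn.ne'
    have : ∑ ω ∈ nthRootsFinset n (1 : ℂ), ζ ^ k * ω ^ k = ∑ ω ∈ nthRootsFinset n (1 : ℂ), ω ^ k :=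
      sum_nbij' (ζ * ·) (ζ⁻¹ * ·)
        (fun ω => by simp +contextual [mem_nthRootsFinset hn, mul_pow, hζ.pow_eq_one])
        (fun ω => by simp +contextual [mem_nthRootsFinset hn, mul_pow, hζ.pow_eq_one])
        (fun ω _ => by simp [z0]) (fun ω _ => by simp [z0]) fun ω _ => (mul_zpow _ _ _).symm
    rw [← mul_sum] at this
    exact by_contra fun h0 =>
      h ((hζ.zpow_eq_one_iff_dvd k).1 ((mul_left_eq_self₀.1 this).resolve_right h0))

lemma ram_int (n : ℕ) (k : ℤ) : ∃ r : ℤ, ram n k = r := by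
  induction n using Nat.strong_induction_on with
  | _ n ih =>
    rcases n.eq_zero_or_pos with rfl | hn
    · exact ⟨0, by simp [ram]⟩
    choose! r hr using ih
    have := full hn k
    rw [← Nat.cons_self_properDivisors hn.ne', sum_cons,
      sum_congr rfl fun d h => hr d (Nat.mem_properDivisors.1 h).2] at this
    refine ⟨(if (n : ℤ) ∣ k then n else 0) - ∑ d ∈ n.properDivisors, r d, ?_⟩
    push_cast
    rw [← this, add_sub_cancel_right]

theorem sram : SRam := by
  refine ⟨fun M N hM hN h F => ?_, fun M N hM hN h k => ?_, fun p i hp k => ?_, fun a ha => ?_⟩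
  · rw [img hM hN h, prod_image (inj hM h), prod_product]
  · simp only [ram]
    rw [img hM hN h, sum_image (inj hM h), sum_product, sum_mul_sum]
    simp only [mul_zpow]
  · have a := full (pow_pos hp.pos (i + 1)) k
    have b := full (pow_pos hp.pos i) k
    rw [Nat.sum_divisors_prime_pow hp] at a b
    rw [sum_range_succ, b] at a
    push_cast at a
    rw [← a, add_sub_cancel_left]
  · choose r hr using ram_int a
    have : NeZero a := ⟨ha.ne'⟩
    refine ⟨fun x => r x.val, ?_, fun x => ?_, fun k => ?_⟩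
    · have := hr 0
      simp only [ram, zpow_zero, sum_const, Complex.card_primitiveRoots, nsmul_eq_mul,
        mul_one] at this
      have e : (a.totient : ℤ) = r 0 := by exact_mod_cast this
      simpa [← e] using ha
    · have : ‖ram a x.val‖ ≤ a := by
        refine (norm_sum_le _ _).trans ?_
        rw [sum_congr rfl (g := fun _ => 1) fun ω h => by
          rw [norm_zpow, (isPrimitiveRoot_of_mem_primitiveRoots h).norm'_eq_one ha.ne', one_zpow]]
        simpa [Complex.card_primitiveRoots] using a.totient_le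
      rw [hr, Complex.norm_intCast] at this
      exact_mod_cast this
    · rw [← hr, ZMod.val_intCast]
      refine sum_congr rfl fun ω h => ?_
      have h := isPrimitiveRoot_of_mem_primitiveRoots h
      rw [← zp ha h, ← zp ha h (k % a), Int.emod_emod_of_dvd _ dvd_rfl]

end Pool.Agent.MP_c1891a_nt.H69
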